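import Mathlib

/-!
# The dissociativity dimension of `m`-subsets of cyclic groups

The formula `dim(ℤ_n, m) = ⌊log₂ m⌋` fails: for every `k ≥ 4`,
`dim(ℤ_{2^k+1}, 2^k - 1) = k = ⌊log₂ (2^k - 1)⌋ + 1`.
-/

set_option autoImplicit false

open Finset

namespace Pool.Agent.Results.MP_fd91d0_co.FermatModuli

/-- `B` is dissociated: there is no nontrivial relation `∑ ε_b b = 0` with `ε_b ∈ {-1, 0, 1}`. -/
def Dissociated {n : ℕ} (B : Finset (ZMod n)) : Prop :=
  ∀ ε : ZMod n → ℤ, (∀ b, ε b = -1 ∨ ε b = 0 ∨ ε b = 1) →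
    ∑ b ∈ B, ε b • b = 0 → ∀ b ∈ B, ε b = 0

/-- The dissociativity dimension of `A`: the largest size of a dissociated subset of `A`. -/
noncomputable def dimension {n : ℕ} (A : Finset (ZMod n)) : ℕ :=
  sSup {k | ∃ B ⊆ A, Dissociated B ∧ B.card = k}

/-- `dim(ℤ_n, m)`: the smallest dimension of an `m`-element subset of `ℤ_n`. -/
noncomputable def minDimension (n m : ℕ) : ℕ :=
  sInf {k | ∃ A : Finset (ZMod n), A.card = m ∧ dimension A = k}

theorem two_pow_card_le {n : ℕ} [NeZero n] {B : Finset (ZMod n)} (hB : Dissociated B) :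
    2 ^ B.card ≤ n := by
  classical
  have hinj : Set.InjOn (fun S : Finset (ZMod n) => ∑ b ∈ S, b) (B.powerset : Set (Finset (ZMod n))) := by
    intro S hS T hT hST
    rw [mem_coe, mem_powerset] at hS hT
    have key := hB (fun b => (if b ∈ S then 1 else 0) - (if b ∈ T then 1 else 0)) (by
      intro b
      by_cases h1 : b ∈ S <;> by_cases h2 : b ∈ T <;> simp [h1, h2]) (by
      have e1 : ∀ U : Finset (ZMod n), U ⊆ B → ∑ b ∈ B, (if b ∈ U then (1 : ℤ) else 0) • b = ∑ b ∈ U, b := by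
        intro U hU
        rw [← Finset.sum_subset hU]
        · apply Finset.sum_congr rfl
          intro b hb
          simp [hb]
        · intro b _ hb
          simp [hb]
      simp only [sub_smul, Finset.sum_sub_distrib]
      rw [e1 S hS, e1 T hT, sub_eq_zero]
      exact hST)
    ext b
    constructor
    · intro hb
      have := key b (hS hb)
      by_contra h2
      simp [hb, h2] at this
    · intro hb
      have := key b (hT hb)
      by_contra h2
      simp [hb, h2] at this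
  have := Finset.card_le_card_of_injOn (s := B.powerset) (t := (Finset.univ : Finset (ZMod n)))
    (fun S => ∑ b ∈ S, b) (fun _ _ => by simp) hinj
  rw [Finset.card_powerset, Finset.card_univ, ZMod.card] at this
  exact this

theorem sum_bound (k : ℕ) (c : ℕ → ℤ) (hc : ∀ i, c i = -1 ∨ c i = 0 ∨ c i = 1) :
    |∑ i ∈ range k, c i * 2 ^ i| ≤ 2 ^ k - 1 := by
  induction k with
  | zero => simp
  | succ k ih =>
    rw [sum_range_succ, pow_succ]
    have h2 : (0 : ℤ) < 2 ^ k := by positivity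
    rw [abs_le] at ih ⊢
    rcases hc k with h | h | h <;> rw [h] <;> constructor <;> linarith [ih.1, ih.2]

theorem sum_zero (k : ℕ) (c : ℕ → ℤ) (hc : ∀ i, c i = -1 ∨ c i = 0 ∨ c i = 1)
    (h : ∑ i ∈ range k, c i * 2 ^ i = 0) : ∀ i < k, c i = 0 := by
  induction k with
  | zero => intro i hi; omega
  | succ k ih =>
    rw [sum_range_succ] at h
    have hb := sum_bound k c hc
    have h2 : (0 : ℤ) < 2 ^ k := by positivity
    rw [abs_le] at hb
    have hk : c k = 0 := by
      rcases hc k with h' | h' | h'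
      · rw [h'] at h; linarith [hb.1, hb.2]
      · exact h'
      · rw [h'] at h; linarith [hb.1, hb.2]
    rw [hk] at h
    simp only [zero_mul, add_zero] at h
    intro i hi
    rcases Nat.lt_succ_iff_lt_or_eq.1 hi with h' | h'
    · exact ih h i h'
    · rw [h']; exact hk

/-- the key arithmetic fact -/
theorem rel_zero (k : ℕ) (u : ℤ) (hu : IsCoprime u (2 ^ k + 1)) (c : ℕ → ℤ)
    (hc : ∀ i, c i = -1 ∨ c i = 0 ∨ c i = 1)
    (h : ((∑ i ∈ range k, c i * (u * 2 ^ i) : ℤ) : ZMod (2 ^ k + 1)) = 0) : ∀ i < k, c i = 0 := by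
  apply sum_zero k c hc
  rw [ZMod.intCast_zmod_eq_zero_iff_dvd] at h
  have e : ∑ i ∈ range k, c i * (u * 2 ^ i) = u * ∑ i ∈ range k, c i * 2 ^ i := by
    rw [mul_sum]; apply sum_congr rfl; intro i _; ring
  rw [e] at h
  push_cast at h
  have h' : ((2 : ℤ) ^ k + 1) ∣ ∑ i ∈ range k, c i * 2 ^ i := hu.symm.dvd_of_dvd_mul_left h
  have hb := sum_bound k c hc
  apply Int.eq_zero_of_abs_lt_dvd h'
  linarith

theorem pow_ne {k : ℕ} (hk : 4 ≤ k) (u : ℤ) (hu : u = 3 ∨ u = 5) {i j : ℕ} (hi : i < k) (hj : j < k)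
    (s : ℤ) (hs : s = 1 ∨ s = -1) : ((u * 2 ^ j : ℤ) : ZMod (2 ^ k + 1)) ≠ ((s * 2 ^ i : ℤ) : ZMod (2 ^ k + 1)) := by
  have hpow : (16 : ℤ) ≤ 2 ^ k := by
    calc (16 : ℤ) = 2 ^ 4 := by norm_num
      _ ≤ 2 ^ k := pow_le_pow_right₀ (by norm_num) hk
  have hodd : IsCoprime ((2 : ℤ) ^ k + 1) 2 := by
    have : IsCoprime ((2 : ℤ) ^ k + 1) (2 ^ k) := ⟨1, -1, by ring⟩
    exact this.of_isCoprime_of_dvd_right (dvd_pow_self 2 (by omega))
  -- core: no congruence `u ≡ ± 2^d` for `d < k`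
  have core : ∀ d < k, ∀ t : ℤ, (t = 1 ∨ t = -1) → ¬ ((2 : ℤ) ^ k + 1 ∣ u - t * 2 ^ d) := by
    intro d hd t ht hdiv
    have h1 : (2 : ℤ) ^ d ≤ 2 ^ (k - 1) := pow_le_pow_right₀ (by norm_num) (by omega)
    have h2 : (2 : ℤ) ^ k = 2 * 2 ^ (k - 1) := by
      rw [← pow_succ']; congr 1; omega
    have h3 : (0 : ℤ) < 2 ^ d := by positivity
    have h4 : u - t * 2 ^ d = 0 := by
      apply Int.eq_zero_of_abs_lt_dvd hdiv
      rw [abs_lt]
      rcases hu with rfl | rfl <;> rcases ht with rfl | rfl <;> constructor <;> linarith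
    rcases ht with rfl | rfl
    · have h5 : u = 2 ^ d := by linarith
      rcases Nat.eq_zero_or_pos d with h0 | h0
      · subst h0; rcases hu with rfl | rfl <;> norm_num at h5
      · have : (2 : ℤ) ∣ u := h5 ▸ dvd_pow_self 2 (by omega)
        rcases hu with rfl | rfl <;> omega
    · rcases hu with rfl | rfl <;> linarith
  intro h
  rw [← sub_eq_zero, ← Int.cast_sub, ZMod.intCast_zmod_eq_zero_iff_dvd] at h
  push_cast at h
  rcases le_or_gt j i with hji | hji
  · have e : u * 2 ^ j - s * 2 ^ i = 2 ^ j * (u - s * 2 ^ (i - j)) := by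
      have : (2 : ℤ) ^ i = 2 ^ j * 2 ^ (i - j) := by rw [← pow_add]; congr 1; omega
      rw [this]; ring
    rw [e] at h
    exact core (i - j) (by omega) s hs ((hodd.pow_right (n := j)).dvd_of_dvd_mul_left h)
  · have e : u * 2 ^ j - s * 2 ^ i = 2 ^ i * (u * 2 ^ (j - i) - s) := by
      have : (2 : ℤ) ^ j = 2 ^ i * 2 ^ (j - i) := by rw [← pow_add]; congr 1; omega
      rw [this]; ring
    rw [e] at h
    have h1 : (2 : ℤ) ^ k + 1 ∣ u * 2 ^ (j - i) - s := (hodd.pow_right (n := i)).dvd_of_dvd_mul_left h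
    apply core (k - (j - i)) (by omega) (-s) (by rcases hs with rfl | rfl <;> simp)
    have h2 : (2 : ℤ) ^ k + 1 ∣ 2 ^ (k - (j - i)) * (u * 2 ^ (j - i) - s) := dvd_mul_of_dvd_right h1 _
    have e2 : (2 : ℤ) ^ (k - (j - i)) * (u * 2 ^ (j - i) - s)
        = u * (2 ^ k + 1) - (u - (-s) * 2 ^ (k - (j - i))) := by
      have : (2 : ℤ) ^ k = 2 ^ (k - (j - i)) * 2 ^ (j - i) := by rw [← pow_add]; congr 1; omega
      rw [this]; ring
    rw [e2] at h2
    exact (dvd_sub_right (dvd_mul_left _ _)).1 h2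

theorem exists_dissociated {k : ℕ} (hk : 4 ≤ k) (A : Finset (ZMod (2 ^ k + 1)))
    (hA : A.card = 2 ^ k - 1) : ∃ B ⊆ A, Dissociated B ∧ B.card = k := by
  classical
  have hpos : (16 : ℕ) ≤ 2 ^ k := by
    calc (16 : ℕ) = 2 ^ 4 := by norm_num
      _ ≤ 2 ^ k := Nat.pow_le_pow_right (by norm_num) hk
  have : NeZero (2 ^ k + 1) := ⟨Nat.succ_ne_zero _⟩
  -- a second unit
  obtain ⟨u, hu, hcop⟩ : ∃ u : ℤ, (u = 3 ∨ u = 5) ∧ IsCoprime u (2 ^ k + 1) := by
    rcases Nat.even_or_odd k with he | ho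
    · refine ⟨3, Or.inl rfl, ?_⟩
      obtain ⟨l, hl⟩ := he
      have h3 : (2 : ℤ) ^ k % 3 = 1 := by
        rw [hl, ← two_mul, pow_mul]
        clear hl
        induction l with
        | zero => norm_num
        | succ l ih => rw [pow_succ]; omega
      refine (Int.isCoprime_iff_gcd_eq_one).2 ?_
      have : (Nat.Prime 3) := by norm_num
      rw [show (3 : ℤ) = ((3 : ℕ) : ℤ) by rfl, ← Int.isCoprime_iff_gcd_eq_one,
        (Nat.prime_iff_prime_int.1 this).coprime_iff_not_dvd]
      intro hd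
      push_cast at hd
      omega
    · refine ⟨5, Or.inr rfl, ?_⟩
      obtain ⟨l, hl⟩ := ho
      have h5 : (2 : ℤ) ^ k % 5 ≠ 4 := by
        rw [hl, pow_succ, pow_mul]
        have h4 : ((2 : ℤ) ^ 2) ^ l % 5 = 1 ∨ ((2 : ℤ) ^ 2) ^ l % 5 = 4 := by
          clear hl
          induction l with
          | zero => left; norm_num
          | succ l ih => rw [pow_succ]; omega
        omega
      refine (Int.isCoprime_iff_gcd_eq_one).2 ?_
      have : (Nat.Prime 5) := by norm_num
      rw [show (5 : ℤ) = ((5 : ℕ) : ℤ) by rfl, ← Int.isCoprime_iff_gcd_eq_one,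
        (Nat.prime_iff_prime_int.1 this).coprime_iff_not_dvd]
      intro hd
      push_cast at hd
      omega
  -- one of the two families avoids the complement
  have hcompl : (Aᶜ).card = 2 := by
    rw [card_compl, ZMod.card, hA]; omega
  have hcop1 : IsCoprime (1 : ℤ) (2 ^ k + 1) := isCoprime_one_left
  have hodd2 : ∀ i < k, ∀ v : ℤ, IsCoprime v (2 ^ k + 1) →
      ((v * 2 ^ i : ℤ) : ZMod (2 ^ k + 1)) ≠ -((v * 2 ^ i : ℤ) : ZMod (2 ^ k + 1)) := by
    intro i hi v hv h
    rw [← sub_eq_zero, sub_neg_eq_add, ← Int.cast_add, ZMod.intCast_zmod_eq_zero_iff_dvd] at h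
    push_cast at h
    have e : v * 2 ^ i + v * 2 ^ i = v * 2 ^ (i + 1) := by ring
    rw [e] at h
    have h1 := hv.symm.dvd_of_dvd_mul_left h
    have h2 : (2 : ℤ) ^ (i + 1) ≤ 2 ^ k := pow_le_pow_right₀ (by norm_num) (by omega)
    have := Int.le_of_dvd (by positivity) h1
    linarith
  obtain ⟨v, hv, hvA⟩ : ∃ v : ℤ, IsCoprime v (2 ^ k + 1) ∧ ∀ i < k,
      ((v * 2 ^ i : ℤ) : ZMod (2 ^ k + 1)) ∈ A ∨ -((v * 2 ^ i : ℤ) : ZMod (2 ^ k + 1)) ∈ A := by
    by_contra hcon
    push Not at hcon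
    obtain ⟨i, hi, hi1, hi2⟩ := hcon 1 hcop1
    obtain ⟨j, hj, hj1, hj2⟩ := hcon u hcop
    have hpair : Aᶜ = {((1 * 2 ^ i : ℤ) : ZMod (2 ^ k + 1)), -((1 * 2 ^ i : ℤ) : ZMod (2 ^ k + 1))} := by
      symm
      apply Finset.eq_of_subset_of_card_le
      · intro x hx
        simp only [mem_insert, mem_singleton] at hx
        rw [mem_compl]
        rcases hx with rfl | rfl
        · exact hi1
        · exact hi2
      · rw [hcompl, card_pair (hodd2 i hi 1 hcop1)]
    have hm : ((u * 2 ^ j : ℤ) : ZMod (2 ^ k + 1)) ∈ Aᶜ := by rw [mem_compl]; exact hj1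
    rw [hpair] at hm
    simp only [mem_insert, mem_singleton] at hm
    rcases hm with hm | hm
    · exact pow_ne hk u hu hi hj 1 (Or.inl rfl) hm
    · refine pow_ne hk u hu hi hj (-1) (Or.inr rfl) ?_
      rw [hm]; push_cast; ring
  -- choose signs
  have hsign : ∀ i, ∃ s : ℤ, (s = 1 ∨ s = -1) ∧ (i < k → ((s * (v * 2 ^ i) : ℤ) : ZMod (2 ^ k + 1)) ∈ A) := by
    intro i
    by_cases hi : i < k
    · rcases hvA i hi with h | h
      · exact ⟨1, Or.inl rfl, fun _ => by simpa using h⟩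
      · refine ⟨-1, Or.inr rfl, fun _ => ?_⟩
        have : ((-1 * (v * 2 ^ i) : ℤ) : ZMod (2 ^ k + 1)) = -((v * 2 ^ i : ℤ) : ZMod (2 ^ k + 1)) := by
          push_cast; ring
        rw [this]; exact h
    · exact ⟨1, Or.inl rfl, fun h => absurd h hi⟩
  choose s hs hsA using hsign
  set f : ℕ → ZMod (2 ^ k + 1) := fun i => ((s i * (v * 2 ^ i) : ℤ) : ZMod (2 ^ k + 1)) with hf
  have hinj : Set.InjOn f (range k : Set ℕ) := by
    intro i hi j hj hij
    rw [mem_coe, mem_range] at hi hj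
    by_contra hne
    have := rel_zero k v hv (fun l => if l = i then s i else if l = j then -s j else 0) (by
      intro l
      split_ifs
      · rcases hs i with h | h <;> simp [h]
      · rcases hs j with h | h <;> simp [h]
      · simp) (by
      have e : ∑ l ∈ range k, (if l = i then s i else if l = j then -s j else 0) * (v * 2 ^ l)
          = s i * (v * 2 ^ i) - s j * (v * 2 ^ j) := by
        have e1 : ∀ l ∈ range k, (if l = i then s i else if l = j then -s j else 0) * (v * 2 ^ l)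
            = (if l = i then s i * (v * 2 ^ i) else 0) - (if l = j then s j * (v * 2 ^ j) else 0) := by
          intro l _
          by_cases h1 : l = i
          · subst h1
            simp [hne]
          · by_cases h2 : l = j
            · subst h2
              simp [h1]
            · simp [h1, h2]
        rw [sum_congr rfl e1, sum_sub_distrib]
        simp [hi, hj]
      rw [e, Int.cast_sub, sub_eq_zero]
      exact hij) i hi
    simp only [if_true] at this
    rcases hs i with h | h <;> rw [h] at this <;> norm_num at this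
  refine ⟨(range k).image f, ?_, ?_, ?_⟩
  · intro x hx
    rw [mem_image] at hx
    obtain ⟨i, hi, rfl⟩ := hx
    exact hsA i (mem_range.1 hi)
  · intro ε hε hsum b hb
    rw [sum_image hinj] at hsum
    rw [mem_image] at hb
    obtain ⟨i, hi, rfl⟩ := hb
    have := rel_zero k v hv (fun l => ε (f l) * s l) (by
      intro l
      rcases hε (f l) with h | h | h <;> rcases hs l with h' | h' <;> simp [h, h']) (by
      rw [Int.cast_sum, ← hsum]
      apply sum_congr rfl
      intro l _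
      rw [zsmul_eq_mul, hf]
      push_cast
      ring) i (mem_range.1 hi)
    rcases hs i with h | h
    · rw [h, mul_one] at this; exact this
    · rw [h] at this; omega
  · rw [card_image_of_injOn hinj, card_range]

theorem dimension_eq {k : ℕ} (hk : 4 ≤ k) (A : Finset (ZMod (2 ^ k + 1)))
    (hA : A.card = 2 ^ k - 1) : dimension A = k := by
  have hub : ∀ l ∈ {l | ∃ B ⊆ A, Dissociated B ∧ B.card = l}, l ≤ k := by
    rintro l ⟨B, _, hB, rfl⟩
    have h := two_pow_card_le hB
    by_contra hlt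
    push Not at hlt
    have h1 : 2 ^ (k + 1) ≤ 2 ^ B.card := Nat.pow_le_pow_right (by norm_num) hlt
    have h2 : 16 ≤ 2 ^ k := by
      calc (16 : ℕ) = 2 ^ 4 := by norm_num
        _ ≤ 2 ^ k := Nat.pow_le_pow_right (by norm_num) hk
    rw [pow_succ] at h1
    omega
  have hmem : k ∈ {l | ∃ B ⊆ A, Dissociated B ∧ B.card = l} := exists_dissociated hk A hA
  exact le_antisymm (csSup_le ⟨k, hmem⟩ hub) (le_csSup ⟨k, hub⟩ hmem)

/-- For every `k ≥ 4`, `dim(ℤ_{2^k+1}, 2^k - 1) = ⌊log₂ (2^k - 1)⌋ + 1`. In particular the formula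
`dim(ℤ_n, m) = ⌊log₂ m⌋` fails for `(n, m) = (17, 15), (33, 31), (65, 63), …`. -/
theorem result : ∀ k : ℕ, 4 ≤ k →
    minDimension (2 ^ k + 1) (2 ^ k - 1) = Nat.log 2 (2 ^ k - 1) + 1 := by
  intro k hk
  have hlog : Nat.log 2 (2 ^ k - 1) + 1 = k := by
    have h1 : 2 ^ (k - 1) ≤ 2 ^ k - 1 := by
      have : 2 ^ k = 2 * 2 ^ (k - 1) := by rw [← pow_succ']; congr 1; omega
      have : 1 ≤ 2 ^ (k - 1) := Nat.one_le_two_pow
      omega
    have h2 : 2 ^ k - 1 < 2 ^ (k - 1 + 1) := by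
      have : k - 1 + 1 = k := by omega
      rw [this]
      have : 1 ≤ 2 ^ k := Nat.one_le_two_pow
      omega
    rw [Nat.log_eq_of_pow_le_of_lt_pow h1 h2]
    omega
  rw [hlog]
  have hne : ∃ A : Finset (ZMod (2 ^ k + 1)), A.card = 2 ^ k - 1 := by
    have : NeZero (2 ^ k + 1) := ⟨Nat.succ_ne_zero _⟩
    obtain ⟨A, _, hA⟩ := Finset.exists_subset_card_eq (s := (Finset.univ : Finset (ZMod (2 ^ k + 1))))
      (n := 2 ^ k - 1) (by rw [card_univ, ZMod.card]; exact le_trans (Nat.sub_le _ _) (Nat.le_succ _))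
    exact ⟨A, hA⟩
  have hset : {l | ∃ A : Finset (ZMod (2 ^ k + 1)), A.card = 2 ^ k - 1 ∧ dimension A = l} = {k} := by
    ext l
    simp only [Set.mem_ofPred_eq, Set.mem_singleton_iff]
    constructor
    · rintro ⟨A, hA, rfl⟩
      exact dimension_eq hk A hA
    · rintro rfl
      obtain ⟨A, hA⟩ := hne
      exact ⟨A, hA, dimension_eq hk A hA⟩
  rw [minDimension, hset, csInf_singleton]

end Pool.Agent.Results.MP_fd91d0_co.FermatModuli
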